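import Pool.Agent.W792.LL.Stm

/-! Project LL: difference of path coefficients. -/

set_option autoImplicit false

namespace Pool.Agent.W240.LL.PATH

open Pool.Agent.W792.LL

theorem split {Γ : Type} (F : Finset Γ) (n : ℕ) (f : (Fin (n + 1) → Γ) → ℝ) :
    ∑ w ∈ Fintype.piFinset (fun _ : Fin (n + 1) => F), f w =
      ∑ y ∈ F, ∑ w ∈ Fintype.piFinset (fun _ : Fin n => F), f (Fin.cons y w) := by
  classical
  rw [← Finset.sum_product']
  refine Finset.sum_nbij' (fun w => (w 0, Fin.tail w))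
    (fun p => (Fin.cons p.1 p.2 : Fin (n + 1) → Γ)) ?_ ?_ ?_ ?_ ?_
  · intro w hw
    rw [Fintype.mem_piFinset] at hw
    rw [Finset.mem_product, Fintype.mem_piFinset]
    exact ⟨hw 0, fun i => hw i.succ⟩
  · intro p hp
    rw [Finset.mem_product, Fintype.mem_piFinset] at hp
    rw [Fintype.mem_piFinset]
    intro i
    refine Fin.cases ?_ (fun i => ?_) i
    · exact hp.1
    · exact hp.2 i
  · intro w _
    exact Fin.cons_self_tail w
  · intro p _
    exact Prod.ext rfl (Fin.tail_cons (α := fun _ => Γ) p.1 p.2)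
  · intro w _
    rw [Fin.cons_self_tail w]

theorem mink {ι : Type} (s : Finset ι) (A B : ι → ℂ) (a b : ℝ) (ha : 0 ≤ a) (hb : 0 ≤ b)
    (hA : ∑ i ∈ s, ‖A i‖ ^ 2 ≤ a ^ 2) (hB : ∑ i ∈ s, ‖B i‖ ^ 2 ≤ b ^ 2) :
    ∑ i ∈ s, ‖A i + B i‖ ^ 2 ≤ (a + b) ^ 2 := by
  have h1 : ∀ i ∈ s, ‖A i + B i‖ ^ 2 ≤ ‖A i‖ ^ 2 + 2 * (‖A i‖ * ‖B i‖) + ‖B i‖ ^ 2 := by
    intro i _
    have h2 := norm_add_le (A i) (B i)
    have h3 := norm_nonneg (A i + B i)
    have h4 : ‖A i + B i‖ ^ 2 ≤ (‖A i‖ + ‖B i‖) ^ 2 := pow_le_pow_left₀ h3 h2 2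
    linarith [h4, sq (‖A i‖ + ‖B i‖), add_sq (‖A i‖) (‖B i‖)]
  have h5 : ∑ i ∈ s, ‖A i‖ * ‖B i‖ ≤ a * b := by
    refine (Real.sum_mul_le_sqrt_mul_sqrt s (fun i => ‖A i‖) (fun i => ‖B i‖)).trans ?_
    exact mul_le_mul (Real.sqrt_le_iff.2 ⟨ha, hA⟩) (Real.sqrt_le_iff.2 ⟨hb, hB⟩)
      (Real.sqrt_nonneg _) ha
  refine (Finset.sum_le_sum h1).trans ?_
  rw [Finset.sum_add_distrib, Finset.sum_add_distrib, ← Finset.mul_sum]
  nlinarith [h5, hA, hB]

theorem shift {Γ : Type} [AddCommGroup Γ] [DecidableEq Γ] (h : Γ →₀ ℂ)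
    (hh : ∑ y ∈ h.support, ‖h y‖ ^ 2 ≤ 1) (X : Finset Γ) (g : Γ → Γ) (hg : Function.Injective g) :
    ∑ x ∈ X, ‖h (g x)‖ ^ 2 ≤ 1 := by
  refine le_trans ?_ hh
  rw [← Finset.sum_image (f := fun y => ‖h y‖ ^ 2) (g := g) (fun a _ b _ hab => hg hab)]
  rw [← Finset.sum_filter_add_sum_filter_not (X.image g) (fun y => y ∈ h.support)]
  have h1 : ∑ x ∈ (X.image g).filter (fun y => ¬ y ∈ h.support), ‖h x‖ ^ 2 = 0 := by
    refine Finset.sum_eq_zero fun y hy => ?_
    rw [Finset.mem_filter, Finsupp.notMem_support_iff] at hy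
    rw [hy.2]
    simp
  rw [h1, add_zero]
  refine Finset.sum_le_sum_of_subset_of_nonneg ?_ (fun _ _ _ => by positivity)
  intro y hy
  exact (Finset.mem_filter.1 hy).2

theorem Nle {Γ : Type} [AddCommGroup Γ] [DecidableEq Γ] (h : Γ →₀ ℂ)
    (hh : ∑ y ∈ h.support, ‖h y‖ ^ 2 ≤ 1) (F : Finset Γ) (n : ℕ) :
    ∀ X : Finset Γ, ∑ x ∈ X, ∑ w ∈ Fintype.piFinset (fun _ : Fin n => F), ‖pth h n x w‖ ^ 2 ≤ 1 := by
  induction n with
  | zero =>
    intro X
    have h1 : ∀ x ∈ X, ∑ w ∈ Fintype.piFinset (fun _ : Fin 0 => F), ‖pth h 0 x w‖ ^ 2 =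
        if x = 0 then 1 else 0 := by
      intro x _
      rw [Fintype.piFinset_of_isEmpty, Finset.univ_unique, Finset.sum_singleton]
      simp only [pth]
      split_ifs <;> simp
    rw [Finset.sum_congr rfl h1, Finset.sum_ite_eq']
    split_ifs <;> norm_num
  | succ n ih =>
    intro X
    have h1 : ∀ x ∈ X, ∑ w ∈ Fintype.piFinset (fun _ : Fin (n + 1) => F), ‖pth h (n + 1) x w‖ ^ 2 =
        ∑ y ∈ F, ‖h (x - y)‖ ^ 2 *
          ∑ w ∈ Fintype.piFinset (fun _ : Fin n => F), ‖pth h n y w‖ ^ 2 := by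
      intro x _
      rw [split]
      refine Finset.sum_congr rfl fun y _ => ?_
      rw [Finset.mul_sum]
      refine Finset.sum_congr rfl fun w _ => ?_
      simp only [pth, Fin.cons_zero, Fin.cons_succ, norm_mul, mul_pow]
    rw [Finset.sum_congr rfl h1, Finset.sum_comm]
    refine le_trans (Finset.sum_le_sum fun y _ => ?_) (ih F)
    rw [← Finset.sum_mul]
    refine mul_le_of_le_one_left (Finset.sum_nonneg fun _ _ => by positivity) ?_
    exact shift h hh X (fun x => x - y) sub_left_injective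

theorem main : Pool.Agent.W792.LL.S_PATH := by
  intro Γ _ _ h h' e he hh hh' hd n F
  induction n with
  | zero =>
    intro x
    simp [pth]
  | succ n ih =>
    intro x
    rw [split, ← Finset.sum_product']
    have h1 : ∀ p ∈ F ×ˢ Fintype.piFinset (fun _ : Fin n => F),
        ‖pth h (n + 1) x (Fin.cons p.1 p.2) - pth h' (n + 1) x (Fin.cons p.1 p.2)‖ ^ 2 =
        ‖h' (x - p.1) * (pth h n p.1 p.2 - pth h' n p.1 p.2) +
          (h (x - p.1) - h' (x - p.1)) * pth h n p.1 p.2‖ ^ 2 := by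
      intro p _
      simp only [pth, Fin.cons_zero, Fin.cons_succ]
      congr 2
      ring
    rw [Finset.sum_congr rfl h1]
    have h2 := mink (F ×ˢ Fintype.piFinset (fun _ : Fin n => F))
      (fun p => h' (x - p.1) * (pth h n p.1 p.2 - pth h' n p.1 p.2))
      (fun p => (h (x - p.1) - h' (x - p.1)) * pth h n p.1 p.2) (n * e) e
      (by positivity) he ?_ ?_
    · refine h2.trans (le_of_eq ?_)
      push_cast
      ring
    · rw [Finset.sum_product]
      simp only [norm_mul, mul_pow]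
      have h3 : ∀ y ∈ F, ∑ w ∈ Fintype.piFinset (fun _ : Fin n => F),
          ‖h' (x - y)‖ ^ 2 * ‖pth h n y w - pth h' n y w‖ ^ 2 ≤
          ‖h' (x - y)‖ ^ 2 * ((n : ℝ) * e) ^ 2 := by
        intro y _
        rw [← Finset.mul_sum]
        exact mul_le_mul_of_nonneg_left (ih y) (by positivity)
      refine (Finset.sum_le_sum h3).trans ?_
      rw [← Finset.sum_mul, ← mul_pow]
      exact mul_le_of_le_one_left (by positivity)
        (shift h' hh' F (fun y => x - y) sub_right_injective)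
    · rw [Finset.sum_product]
      simp only [norm_mul, mul_pow]
      have h3 : ∀ y ∈ F, ∑ w ∈ Fintype.piFinset (fun _ : Fin n => F),
          ‖h (x - y) - h' (x - y)‖ ^ 2 * ‖pth h n y w‖ ^ 2 ≤
          e ^ 2 * ∑ w ∈ Fintype.piFinset (fun _ : Fin n => F), ‖pth h n y w‖ ^ 2 := by
        intro y _
        rw [← Finset.mul_sum]
        refine mul_le_mul_of_nonneg_right ?_ (Finset.sum_nonneg fun _ _ => by positivity)
        exact pow_le_pow_left₀ (norm_nonneg _) (hd _) 2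
      refine (Finset.sum_le_sum h3).trans ?_
      rw [← Finset.mul_sum]
      exact mul_le_of_le_one_right (by positivity) (Nle h hh F n F)

end Pool.Agent.W240.LL.PATH
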